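import Pool.Agent.Helper55_CD.Stmts

/-!
# The Euler characteristic of a cubical complex is a sum over the links
-/

namespace Pool.Agent.CD.H55

open Classical Finset

noncomputable section

variable {X : Type}

/-- Change one coordinate. -/
def flip {d : ℕ} (p : Fin d → Bool) (i : Fin d) : Fin d → Bool := Function.update p i (!p i)

lemma flip_self {d : ℕ} (p : Fin d → Bool) (i : Fin d) : flip p i i = !p i := by
  simp [flip]

lemma flip_ne {d : ℕ} (p : Fin d → Bool) {i j : Fin d} (h : j ≠ i) : flip p i j = p j := by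
  simp [flip, h]

lemma flip_ne_self {d : ℕ} (p : Fin d → Bool) (i : Fin d) : flip p i ≠ p := by
  intro h
  have := congrFun h i
  rw [flip_self] at this
  cases hp : p i <;> simp [hp] at this

lemma flip_inj {d : ℕ} (p : Fin d → Bool) : Function.Injective (flip p) := by
  intro i j h
  by_contra hne
  have := congrFun h i
  rw [flip_self, flip_ne p hne] at this
  cases hp : p i <;> simp [hp] at this

lemma isFace_pair {d : ℕ} (p q : Fin d → Bool) (hne : q ≠ p) (h : IsFace ({p, q} : Set (Fin d → Bool))) :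
    ∃ i, q = flip p i := by
  obtain ⟨r, I, hr⟩ := h
  have hp : ∀ i, i ∉ I → p i = r i := by
    have : p ∈ ({p, q} : Set (Fin d → Bool)) := by simp
    rw [hr] at this
    exact this
  have hq : ∀ i, i ∉ I → q i = r i := by
    have : q ∈ ({p, q} : Set (Fin d → Bool)) := by simp
    rw [hr] at this
    exact this
  obtain ⟨i, hi⟩ : ∃ i, q i ≠ p i := by
    by_contra hcon
    push Not at hcon
    exact hne (funext hcon)
  have hiI : i ∈ I := by
    by_contra h'
    exact hi ((hq i h').trans (hp i h').symm)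
  have h1 : flip p i ∈ ({p, q} : Set (Fin d → Bool)) := by
    rw [hr]
    intro j hj
    rw [flip_ne p (fun h' => hj (by rw [h']; exact hiI))]
    exact hp j hj
  rcases h1 with h1 | h1
  · exact absurd h1 (flip_ne_self p i)
  · exact ⟨i, h1.symm⟩

lemma isFace_flip {d : ℕ} (p : Fin d → Bool) (i : Fin d) :
    IsFace ({p, flip p i} : Set (Fin d → Bool)) := by
  refine ⟨p, {i}, ?_⟩
  ext q
  simp only [Set.mem_insert_iff, Set.mem_singleton_iff, Set.mem_ofPred_eq]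
  constructor
  · rintro (h | h)
    · intro j _
      rw [h]
    · intro j hj
      rw [h, flip_ne p hj]
  · intro h
    by_cases hi : q i = p i
    · left
      funext j
      by_cases hj : j = i
      · rw [hj, hi]
      · exact h j hj
    · right
      funext j
      by_cases hj : j = i
      · rw [hj, flip_self]
        cases hp : p i <;> cases hq : q i <;> simp [hp, hq] at hi ⊢
      · rw [flip_ne p hj]
        exact h j hj

/-- The neighbours of `x` in the cube `K`. -/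
def nb (𝒦 : CubicalComplex X) (x : X) [Fintype X] (K : Finset X) : Finset (𝒦.Nbr x) :=
  univ.filter fun y => y.1 ∈ K

lemma mem_nb [Fintype X] {𝒦 : CubicalComplex X} {x : X} {K : Finset X} {y : 𝒦.Nbr x} :
    y ∈ nb 𝒦 x K ↔ y.1 ∈ K := by
  simp [nb]

/-- A chart of the cube `K` at the vertex `x`. -/
lemma chart (𝒦 : CubicalComplex X) {K : Finset X} (hK : K ∈ 𝒦.cubes) {x : X} (hx : x ∈ K) :
    ∃ (d : ℕ) (φ : (Fin d → Bool) → X) (p : Fin d → Bool), Function.Injective φ ∧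
      (∀ y, y ∈ K ↔ ∃ q, φ q = y) ∧ φ p = x ∧ K.card = 2 ^ d ∧
      (∀ q, (q ≠ p ∧ {x, φ q} ∈ 𝒦.cubes) ↔ ∃ i, q = flip p i) ∧
      (∀ F : Finset X, F ⊆ K → (F ∈ 𝒦.cubes ↔ IsFace (φ ⁻¹' (F : Set X)))) := by
  obtain ⟨d, φ, h1, h2, h3⟩ := 𝒦.cube K hK
  have hmem : ∀ y, y ∈ K ↔ ∃ q, φ q = y := by
    intro y
    have : y ∈ (K : Set X) ↔ y ∈ Set.range φ := by rw [h2]
    simpa using this
  obtain ⟨p, hp⟩ := (hmem x).mp hx
  refine ⟨d, φ, p, h1, hmem, hp, ?_, ?_, h3⟩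
  · have : K = univ.image φ := by
      ext y
      rw [hmem]
      simp
    rw [this, card_image_of_injective _ h1]
    simp
  · intro q
    have hsub : ({x, φ q} : Finset X) ⊆ K := by
      intro y hy
      rw [mem_insert, mem_singleton] at hy
      rcases hy with h | h
      · rw [h]; exact hx
      · rw [h]; exact (hmem _).mpr ⟨q, rfl⟩
    have hpre : φ ⁻¹' ((({x, φ q} : Finset X) : Set X)) = {p, q} := by
      ext r
      simp only [Set.mem_preimage, Finset.coe_insert, Finset.coe_singleton, Set.mem_insert_iff,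
        Set.mem_singleton_iff]
      rw [← hp, h1.eq_iff, h1.eq_iff]
    constructor
    · rintro ⟨hne, hc⟩
      have := (h3 _ hsub).mp hc
      rw [hpre] at this
      exact isFace_pair p q hne this
    · rintro ⟨i, rfl⟩
      refine ⟨flip_ne_self p i, ?_⟩
      rw [h3 _ hsub, hpre]
      exact isFace_flip p i

lemma card_nb [Fintype X] (𝒦 : CubicalComplex X) {K : Finset X} (hK : K ∈ 𝒦.cubes) {x : X}
    (hx : x ∈ K) : K.card = 2 ^ (nb 𝒦 x K).card := by
  obtain ⟨d, φ, p, h1, h2, hp, hc, h4, -⟩ := chart 𝒦 hK hx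
  rw [hc]
  congr 1
  symm
  have e : ∀ i : Fin d, φ (flip p i) ≠ x ∧ {x, φ (flip p i)} ∈ 𝒦.cubes := by
    intro i
    have := (h4 (flip p i)).mpr ⟨i, rfl⟩
    refine ⟨fun h => this.1 (h1 (h.trans hp.symm)), this.2⟩
  have : nb 𝒦 x K = (univ : Finset (Fin d)).image fun i => (⟨φ (flip p i), e i⟩ : 𝒦.Nbr x) := by
    ext y
    rw [mem_nb, mem_image]
    constructor
    · intro hy
      obtain ⟨q, hq⟩ := (h2 _).mp hy
      obtain ⟨i, hi⟩ := (h4 q).mp ⟨fun h => y.2.1 (by rw [← hq, h, hp]), by rw [hq]; exact y.2.2⟩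
      refine ⟨i, mem_univ _, ?_⟩
      apply Subtype.ext
      show φ (flip p i) = y.1
      rw [← hi, hq]
    · rintro ⟨i, -, rfl⟩
      exact (h2 _).mpr ⟨_, rfl⟩
  rw [this, card_image_of_injective]
  · simp
  · intro i j hij
    have := congrArg Subtype.val hij
    exact flip_inj p (h1 this)

lemma nb_inj [Fintype X] (𝒦 : CubicalComplex X) {K L : Finset X} (hK : K ∈ 𝒦.cubes)
    (hL : L ∈ 𝒦.cubes) {x : X} (hxK : x ∈ K) (hxL : x ∈ L) (h : nb 𝒦 x K ⊆ nb 𝒦 x L) : K ⊆ L := by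
  obtain ⟨d, φ, p, h1, h2, hp, -, h4, h5⟩ := chart 𝒦 hK hxK
  have hM : K ∩ L ∈ 𝒦.cubes := 𝒦.inter K hK L hL ⟨x, mem_inter.mpr ⟨hxK, hxL⟩⟩
  obtain ⟨r, I, hI⟩ := (h5 (K ∩ L) inter_subset_left).mp hM
  have hpI : ∀ i, i ∉ I → p i = r i := by
    have : p ∈ φ ⁻¹' ((K ∩ L : Finset X) : Set X) := by
      show φ p ∈ ((K ∩ L : Finset X) : Set X)
      rw [hp]
      exact_mod_cast mem_inter.mpr ⟨hxK, hxL⟩
    rw [hI] at this
    exact this
  have hall : ∀ i, i ∈ I := by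
    intro i
    by_contra hi
    have e := (h4 (flip p i)).mpr ⟨i, rfl⟩
    have hne : φ (flip p i) ≠ x := fun h' => e.1 (h1 (h'.trans hp.symm))
    have hy : (⟨φ (flip p i), hne, e.2⟩ : 𝒦.Nbr x) ∈ nb 𝒦 x K :=
      mem_nb.mpr ((h2 _).mpr ⟨_, rfl⟩)
    have hyL : φ (flip p i) ∈ L := mem_nb.mp (h hy)
    have : flip p i ∈ φ ⁻¹' ((K ∩ L : Finset X) : Set X) := by
      show φ (flip p i) ∈ ((K ∩ L : Finset X) : Set X)
      exact_mod_cast mem_inter.mpr ⟨(h2 _).mpr ⟨_, rfl⟩, hyL⟩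
    rw [hI] at this
    have h6 := this i hi
    rw [flip_self, ← hpI i hi] at h6
    cases hpi : p i <;> simp [hpi] at h6
  intro y hy
  obtain ⟨q, hq⟩ := (h2 y).mp hy
  have : q ∈ φ ⁻¹' ((K ∩ L : Finset X) : Set X) := by
    rw [hI]
    intro i hi
    exact absurd (hall i) hi
  have h7 : φ q ∈ ((K ∩ L : Finset X) : Set X) := this
  rw [hq] at h7
  have h8 : y ∈ K ∩ L := by exact_mod_cast h7
  exact (mem_inter.mp h8).2

lemma nb_surj [Fintype X] (𝒦 : CubicalComplex X) {K : Finset X} (hK : K ∈ 𝒦.cubes) {x : X}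
    (hx : x ∈ K) (T : Finset (𝒦.Nbr x)) (hT : ∀ y ∈ T, y.1 ∈ K) :
    ∃ F ∈ 𝒦.cubes, x ∈ F ∧ nb 𝒦 x F = T := by
  obtain ⟨d, φ, p, h1, h2, hp, -, h4, h5⟩ := chart 𝒦 hK hx
  let I : Set (Fin d) := {i | ∃ y ∈ T, y.1 = φ (flip p i)}
  let F : Finset X := (univ.filter fun q : Fin d → Bool => ∀ i, i ∉ I → q i = p i).image φ
  have hF : F ⊆ K := by
    intro y hy
    obtain ⟨q, -, hq⟩ := mem_image.mp hy
    exact (h2 y).mpr ⟨q, hq⟩
  have hpre : φ ⁻¹' (F : Set X) = {q | ∀ i, i ∉ I → q i = p i} := by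
    ext q
    simp only [Set.mem_preimage, Finset.mem_coe, Set.mem_ofPred_eq]
    constructor
    · intro hq
      obtain ⟨q', hq', he⟩ := mem_image.mp hq
      rw [← h1 he]
      exact (mem_filter.mp hq').2
    · intro hq
      exact mem_image.mpr ⟨q, mem_filter.mpr ⟨mem_univ _, hq⟩, rfl⟩
  have hFc : F ∈ 𝒦.cubes := by
    rw [h5 F hF, hpre]
    exact ⟨p, I, rfl⟩
  have hmemF : ∀ q, φ q ∈ F ↔ ∀ i, i ∉ I → q i = p i := by
    intro q
    have : q ∈ φ ⁻¹' (F : Set X) ↔ q ∈ {q : Fin d → Bool | ∀ i, i ∉ I → q i = p i} := by rw [hpre]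
    simpa using this
  refine ⟨F, hFc, ?_, ?_⟩
  · rw [← hp, hmemF]
    intro i _
    rfl
  · ext y
    rw [mem_nb]
    constructor
    · intro hy
      obtain ⟨q, hq⟩ := (h2 _).mp (hF hy)
      obtain ⟨i, hi⟩ := (h4 q).mp ⟨fun h => y.2.1 (by rw [← hq, h, hp]), by rw [hq]; exact y.2.2⟩
      have hiI : i ∈ I := by
        by_contra hcon
        rw [← hq, hmemF] at hy
        have := hy i hcon
        rw [hi, flip_self] at this
        cases hpi : p i <;> simp [hpi] at this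
      obtain ⟨z, hz, hzz⟩ := hiI
      have : z = y := Subtype.ext (by rw [hzz, ← hi, hq])
      rwa [← this]
    · intro hy
      obtain ⟨q, hq⟩ := (h2 _).mp (hT y hy)
      obtain ⟨i, hi⟩ := (h4 q).mp ⟨fun h => y.2.1 (by rw [← hq, h, hp]), by rw [hq]; exact y.2.2⟩
      rw [← hq, hmemF]
      intro j hj
      have hji : j ≠ i := by
        rintro rfl
        exact hj ⟨y, hy, by rw [← hi, hq]⟩
      rw [hi, flip_ne p hji]

/-- The sum over the cliques of the link is the sum over the cubes which contain the vertex. -/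
lemma link_sum [Fintype X] (𝒦 : CubicalComplex X) (hn : 𝒦.Nonpositive) (x : X) :
    ∑ T ∈ univ.filter (fun T : Finset (𝒦.Nbr x) => (𝒦.linkGraph x).IsClique (T : Set (𝒦.Nbr x))),
      (-1 / 2 : ℚ) ^ T.card =
    ∑ K : Finset X with K ∈ 𝒦.cubes ∧ x ∈ K, (-1 / 2 : ℚ) ^ Nat.log 2 K.card := by
  symm
  apply Finset.sum_bij (fun K _ => nb 𝒦 x K)
  · intro K hK
    rw [mem_filter] at hK ⊢
    refine ⟨mem_univ _, ?_⟩
    intro y hy z hz hne
    exact ⟨hne, K, hK.2.1, hK.2.2, mem_nb.mp (by exact_mod_cast hy), mem_nb.mp (by exact_mod_cast hz)⟩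
  · intro K hK L hL h
    rw [mem_filter] at hK hL
    exact Finset.Subset.antisymm (nb_inj 𝒦 hK.2.1 hL.2.1 hK.2.2 hL.2.2 (by rw [h]))
      (nb_inj 𝒦 hL.2.1 hK.2.1 hL.2.2 hK.2.2 (by rw [h]))
  · intro T hT
    rw [mem_filter] at hT
    obtain ⟨K, hK, hx, hTK⟩ := hn x T hT.2
    obtain ⟨F, hF, hxF, hFT⟩ := nb_surj 𝒦 hK hx T hTK
    exact ⟨F, mem_filter.mpr ⟨mem_univ _, hF, hxF⟩, hFT⟩
  · intro K hK
    rw [mem_filter] at hK
    rw [card_nb 𝒦 hK.2.1 hK.2.2, Nat.log_pow (by norm_num)]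

/-- The Euler characteristic as a sum over the vertices. -/
theorem euler_eq [Fintype X] (𝒦 : CubicalComplex X) (hn : 𝒦.Nonpositive) :
    (𝒦.euler : ℚ) = ∑ x : X,
      ∑ T ∈ univ.filter (fun T : Finset (𝒦.Nbr x) =>
        (𝒦.linkGraph x).IsClique (T : Set (𝒦.Nbr x))), (-1 / 2 : ℚ) ^ T.card := by
  simp_rw [link_sum 𝒦 hn]
  have h1 : ∀ x : X, ∑ K : Finset X with K ∈ 𝒦.cubes ∧ x ∈ K, (-1 / 2 : ℚ) ^ Nat.log 2 K.card
      = ∑ K : Finset X with K ∈ 𝒦.cubes, if x ∈ K then (-1 / 2 : ℚ) ^ Nat.log 2 K.card else 0 := by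
    intro x
    rw [← Finset.sum_filter, Finset.filter_filter]
  simp_rw [h1]
  rw [Finset.sum_comm]
  unfold CubicalComplex.euler
  push_cast
  apply Finset.sum_congr rfl
  intro K hK
  rw [mem_filter] at hK
  rw [← Finset.sum_filter, Finset.sum_const, nsmul_eq_mul]
  have h2 : (univ.filter fun x => x ∈ K) = K := by
    ext y
    simp
  rw [h2]
  obtain ⟨d, φ, hinj, hr, h3⟩ := 𝒦.cube K hK.2
  have hx : φ (fun _ => true) ∈ K := by
    have : φ (fun _ => true) ∈ (K : Set X) := by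
      rw [← hr]
      exact ⟨_, rfl⟩
    exact_mod_cast this
  have h4 := card_nb 𝒦 hK.2 hx
  rw [h4, Nat.log_pow (by norm_num)]
  push_cast
  rw [← mul_pow]
  norm_num

theorem cub (h : ChdStmt) : CubStmt := by
  intro X _ 𝒦 k hn hs
  have h1 : (0 : ℚ) ≤ (-1) ^ k * (𝒦.euler : ℚ) := by
    rw [euler_eq 𝒦 hn, Finset.mul_sum]
    apply Finset.sum_nonneg
    intro x _
    have h2 := h (𝒦.Nbr x) (𝒦.linkGraph x) k (hs x)
    convert h2
    rfl
  exact_mod_cast h1

end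

end Pool.Agent.CD.H55
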