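import Pool.Agent.Helper30_Sph.Defs

/-!
# Cubical complexes of nonpositive curvature

An abstract cubical complex with vertex set `X` is a family of finite sets of vertices, the cubes,
such that each cube is a combinatorial cube whose faces belong to the family and two cubes which
meet have a common face as intersection.  (Every finite complex which is glued from cubes takes this
form after finitely many cubical subdivisions.)
-/

namespace Pool.Agent.CD.H55

open Classical

noncomputable section

/-- The faces of the standard cube with vertex set `{0, 1} ^ d`: the coordinates outside a set `I`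
are fixed. -/
def IsFace {d : ℕ} (F : Set (Fin d → Bool)) : Prop :=
  ∃ (p : Fin d → Bool) (I : Set (Fin d)), F = {q | ∀ i, i ∉ I → q i = p i}

/-- An abstract cubical complex. The set `K` of vertices of a cube of dimension `d` is the image of
the vertices of the standard cube; a subset of `K` is a cube of the complex if and only if it
corresponds to a face of the standard cube. -/
structure CubicalComplex (X : Type) where
  cubes : Set (Finset X)
  vertex : ∀ x, {x} ∈ cubes
  cube : ∀ K ∈ cubes, ∃ (d : ℕ) (φ : (Fin d → Bool) → X), Function.Injective φ ∧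
    Set.range φ = (K : Set X) ∧ ∀ F : Finset X, F ⊆ K → (F ∈ cubes ↔ IsFace (φ ⁻¹' (F : Set X)))
  inter : ∀ K ∈ cubes, ∀ L ∈ cubes, (K ∩ L).Nonempty → K ∩ L ∈ cubes

variable {X : Type}

/-- The vertices of the link of `x`: the other ends of the edges which contain `x`. -/
abbrev CubicalComplex.Nbr (𝒦 : CubicalComplex X) (x : X) : Type :=
  {y : X // y ≠ x ∧ {x, y} ∈ 𝒦.cubes}

/-- The graph of the link of `x`: two edges at `x` are adjacent if they lie in a common cube. -/
def CubicalComplex.linkGraph (𝒦 : CubicalComplex X) (x : X) : SimpleGraph (𝒦.Nbr x) where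
  Adj y z := y ≠ z ∧ ∃ K ∈ 𝒦.cubes, x ∈ K ∧ y.1 ∈ K ∧ z.1 ∈ K
  symm := ⟨fun _ _ h => ⟨h.1.symm, by
    obtain ⟨_, K, h1, h2, h3, h4⟩ := h
    exact ⟨K, h1, h2, h4, h3⟩⟩⟩
  loopless := ⟨fun _ h => h.1 rfl⟩

/-- Nonpositive curvature (Gromov's link condition): edges at `x` which pairwise lie in a common
cube all lie in a common cube. Then the link of `x` is the flag complex of its graph. -/
def CubicalComplex.Nonpositive (𝒦 : CubicalComplex X) : Prop :=
  ∀ (x : X) (T : Finset (𝒦.Nbr x)), (𝒦.linkGraph x).IsClique (T : Set (𝒦.Nbr x)) →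
    ∃ K ∈ 𝒦.cubes, x ∈ K ∧ ∀ y ∈ T, y.1 ∈ K

/-- The Euler characteristic: a cube with `2 ^ d` vertices has dimension `d`. -/
def CubicalComplex.euler [Fintype X] (𝒦 : CubicalComplex X) : ℤ :=
  ∑ K : Finset X with K ∈ 𝒦.cubes, (-1) ^ Nat.log 2 K.card

/-- The Charney-Davis inequality for homology spheres over the field with two elements. -/
def ChdStmt : Prop := ∀ (V : Type) [Fintype V] (Γ : SimpleGraph V) (k : ℕ),
  Pool.Agent.Sph.HomologySphere Γ (2 * k) →
    0 ≤ (-1) ^ k * ∑ T ∈ Finset.univ.filter (fun T : Finset V => Γ.IsClique (T : Set V)),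
      (-1 / 2 : ℚ) ^ T.card

/-- The sign of the Euler characteristic of cubical complexes of nonpositive curvature which are
homology manifolds of dimension `2 k` over the field with two elements. -/
def CubStmt : Prop := ∀ (X : Type) [Fintype X] (𝒦 : CubicalComplex X) (k : ℕ), 𝒦.Nonpositive →
  (∀ x, Pool.Agent.Sph.HomologySphere (𝒦.linkGraph x) (2 * k)) → 0 ≤ (-1) ^ k * 𝒦.euler

end

end Pool.Agent.CD.H55
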